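import Pool.Agent.H207.BT.Stm5
import Pool.Graph.R_seed8.H790R3.RB.Basic

/-!
# Project BT (helper207): the periodic point moves holomorphically (`S_MOT`), by helper722
-/

set_option autoImplicit false

open Topology Filter Metric Set

namespace Pool.Agent.H722.BT207

open Pool.Agent.H790R3.RB Pool.Agent.H211.HY

/-- the equation of the fixed points of the `n`-th iterate -/
noncomputable def HH {d : ℕ} (n : ℕ) (q : CV d × ℂ) : ℂ := cr ((hF q.1)^[n] (q.2, 1)) (q.2, 1)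

theorem HH_contDiff (d n : ℕ) : ContDiff ℂ 1 (HH (d := d) n) := by
  have h1 : ContDiff ℂ 1 (fun q : CV d × ℂ => (hF q.1)^[n] (q.2, 1)) :=
    (hF_iter_contDiff d n 1).comp (contDiff_fst.prodMk (contDiff_snd.prodMk contDiff_const))
  unfold HH cr
  exact (h1.fst.mul contDiff_const).sub (h1.snd.mul contDiff_snd)

theorem N2_smul (a : ℂ) (p : ℂ × ℂ) : N2 (a • p) = ‖a‖ ^ 2 * N2 p := by
  simp only [N2, Prod.smul_fst, Prod.smul_snd, smul_eq_mul, norm_mul]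
  ring

/-- the derivative in the second variable -/
theorem HH_deriv (hC : S_CHO) {d : ℕ} (x₀ : CV d) (ξ : ℂ) (n : ℕ) (hd : 2 ≤ d) (hx : ND x₀)
    (hp : cr ((hF x₀)^[n] (ξ, 1)) (ξ, 1) = 0) (hs : 1 < sdn x₀ n (ξ, 1)) :
    ∃ D : ℂ, D ≠ 0 ∧ HasDerivAt (fun ζ : ℂ => HH n (x₀, ζ)) D ξ := by
  obtain ⟨h, hh⟩ : ∃ h : ℂ → ℂ × ℂ, h = fun z => (z, 1) := ⟨_, rfl⟩
  obtain ⟨k, hk⟩ : ∃ k : ℂ → ℂ × ℂ, k = fun w => (hF x₀)^[n] (h w) := ⟨_, rfl⟩
  have hhd : HasDerivAt h (1, 0) ξ := by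
    rw [hh]
    exact (hasDerivAt_id ξ).prodMk (hasDerivAt_const ξ (1 : ℂ))
  have hne : ((ξ, 1) : ℂ × ℂ) ≠ 0 := by
    intro h0
    have := congrArg Prod.snd h0
    simp at this
  have hkd : DifferentiableAt ℂ k ξ := by
    have h1 : ContDiff ℂ 1 (fun w : ℂ => (hF x₀)^[n] (w, 1)) :=
      (hF_iter_contDiff d n 1).comp (contDiff_const.prodMk (contDiff_id.prodMk contDiff_const))
    rw [hk, hh]
    exact (h1.differentiable (by norm_num)) ξ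
  obtain ⟨k', hk'⟩ : ∃ k', k' = deriv k ξ := ⟨_, rfl⟩
  have hkd' : HasDerivAt k k' ξ := by rw [hk']; exact hkd.hasDerivAt
  have hhξ : h ξ = (ξ, 1) := by rw [hh]
  have hkξ : k ξ = (hF x₀)^[n] (ξ, 1) := by rw [hk, hh]
  -- the direction is fixed
  have hkne : k ξ ≠ 0 := by rw [hkξ]; exact ND.iter_ne hx n hne
  obtain ⟨a, ha, hka⟩ := (cr_eq_zero_iff hkne hne).mp (by rw [hkξ]; exact hp)
  -- the speed
  have hsp := (hC.2.2.2.2 d x₀ hd hx).1 h ξ n hhd.differentiableAt (by rw [hhξ]; exact hne)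
  have hsp2 : spd k ξ = sdn x₀ n (h ξ) * spd h ξ := by rw [hk]; exact hsp
  have hN : 0 < N2 ((ξ, 1) : ℂ × ℂ) := by
    unfold N2
    have : (0 : ℝ) ≤ ‖((ξ, 1) : ℂ × ℂ).1‖ ^ 2 := by positivity
    have h1 : ‖((ξ, 1) : ℂ × ℂ).2‖ ^ 2 = 1 := by simp
    rw [h1]; linarith
  have hcr : cr ((1, 0) : ℂ × ℂ) (ξ, 1) = 1 := by unfold cr; simp
  have hpos : (0 : ℝ) < ‖a‖ := norm_pos_iff.mpr ha
  have hkey : ‖cr k' (ξ, 1)‖ = ‖a‖ * sdn x₀ n (ξ, 1) := by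
    unfold spd at hsp2
    rw [← hk', hhd.deriv, hhξ, hka, cr_smul_right, N2_smul, hcr, norm_mul, norm_one] at hsp2
    have hN0 : N2 ((ξ, 1) : ℂ × ℂ) ≠ 0 := ne_of_gt hN
    have ha0 : ‖a‖ ≠ 0 := ne_of_gt hpos
    field_simp at hsp2
    linarith
  refine ⟨cr k' (ξ, 1) - a, ?_, ?_⟩
  · intro h0
    have h1 : cr k' (ξ, 1) = a := sub_eq_zero.mp h0
    rw [h1] at hkey
    nlinarith
  · have e1 : HasDerivAt (fun ζ => (k ζ).1) k'.1 ξ :=
      (ContinuousLinearMap.fst ℂ ℂ ℂ).hasFDerivAt.comp_hasDerivAt ξ hkd'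
    have e2 : HasDerivAt (fun ζ => (k ζ).2) k'.2 ξ :=
      (ContinuousLinearMap.snd ℂ ℂ ℂ).hasFDerivAt.comp_hasDerivAt ξ hkd'
    have e3 : HasDerivAt (fun ζ => (k ζ).1 * 1 - (k ζ).2 * ζ)
        (k'.1 * 1 - (k'.2 * ξ + (k ξ).2 * 1)) ξ :=
      (e1.mul_const 1).sub (e2.mul (hasDerivAt_id ξ))
    have e4 : (fun ζ => (k ζ).1 * 1 - (k ζ).2 * ζ) = fun ζ : ℂ => HH n (x₀, ζ) := by
      funext ζ
      rw [hk, hh]
      rfl
    have e5 : k'.1 * 1 - (k'.2 * ξ + (k ξ).2 * 1) = cr k' (ξ, 1) - a := by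
      have : (k ξ).2 = a := by rw [hka]; simp
      rw [this]
      unfold cr
      ring
    rw [e4, e5] at e3
    exact e3

theorem t_MOT (h : S_CHO) : Pool.Agent.H207.BT.S_MOT := by
  intro d k x₀ X ρ ξ n hd hx hρ hX hX0 hn hp hs
  obtain ⟨D, hD, hder⟩ := HH_deriv h x₀ ξ n hd hx hp hs
  have cdf : ContDiffAt ℂ 1 (HH (d := d) n) (x₀, ξ) := (HH_contDiff d n).contDiffAt
  have hfd : HasFDerivAt (HH (d := d) n) (fderiv ℂ (HH (d := d) n) (x₀, ξ)) (x₀, ξ) :=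
    (cdf.differentiableAt (by norm_num)).hasFDerivAt
  have hc : HasDerivAt (fun ζ : ℂ => ((x₀, ζ) : CV d × ℂ)) (0, 1) ξ :=
    (hasDerivAt_const ξ x₀).prodMk (hasDerivAt_id ξ)
  have h1 : HasDerivAt (fun ζ : ℂ => HH n (x₀, ζ)) (fderiv ℂ (HH (d := d) n) (x₀, ξ) (0, 1)) ξ :=
    hfd.comp_hasDerivAt ξ hc
  have h2 : fderiv ℂ (HH (d := d) n) (x₀, ξ) (0, 1) = D := h1.unique hder
  have hif : (fderiv ℂ (HH (d := d) n) (x₀, ξ) ∘L .inr ℂ (CV d) ℂ).IsInvertible := by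
    refine ⟨ContinuousLinearEquiv.unitsEquivAut ℂ (Units.mk0 D hD), ?_⟩
    apply ContinuousLinearMap.ext_ring
    have h3 : (fderiv ℂ (HH (d := d) n) (x₀, ξ) ∘L .inr ℂ (CV d) ℂ) 1 = D := h2
    rw [h3]
    simp
  obtain ⟨ψ, hψ⟩ : ∃ ψ, ψ = cdf.implicitFunction one_ne_zero hif := ⟨_, rfl⟩
  have hψ0 : ψ x₀ = ξ := by
    rw [hψ]
    exact cdf.implicitFunction_apply_self one_ne_zero hif
  have hψ1 : ∀ᶠ x in 𝓝 x₀, HH n (x, ψ x) = 0 := by
    have h3 := cdf.eventually_apply_implicitFunction one_ne_zero hif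
    rw [← hψ] at h3
    have h4 : HH (d := d) n (x₀, ξ) = 0 := hp
    rw [h4] at h3
    exact h3
  have hψ2 : ∀ᶠ x in 𝓝 x₀, DifferentiableAt ℂ ψ x := by
    have h3 : ContDiffAt ℂ 1 ψ x₀ := by
      rw [hψ]
      exact cdf.contDiffAt_implicitFunction one_ne_zero hif
    have h4 := h3.eventually (by norm_num)
    exact h4.mono fun x hx => hx.differentiableAt (by norm_num)
  have hXc : Tendsto X (𝓝 0) (𝓝 x₀) := by
    have h3 : DifferentiableAt ℂ X 0 := hX.differentiableAt (ball_mem_nhds 0 hρ)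
    have h4 := h3.continuousAt
    unfold ContinuousAt at h4
    rwa [hX0] at h4
  have hev := hXc.eventually (hψ1.and hψ2)
  obtain ⟨r, hr, hball⟩ := Metric.eventually_nhds_iff_ball.mp hev
  refine ⟨min r ρ, lt_min hr hρ, min_le_right _ _, fun s => ψ (X s), ?_, ?_, ?_⟩
  · intro s hs
    have hs1 : s ∈ ball (0 : Fin k → ℂ) r := ball_subset_ball (min_le_left _ _) hs
    have hs2 : s ∈ ball (0 : Fin k → ℂ) ρ := ball_subset_ball (min_le_right _ _) hs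
    have h3 : DifferentiableAt ℂ X s := hX.differentiableAt (isOpen_ball.mem_nhds hs2)
    exact ((hball s hs1).2.comp s h3).differentiableWithinAt
  · show ψ (X 0) = ξ
    rw [hX0, hψ0]
  · intro s hs
    have hs1 : s ∈ ball (0 : Fin k → ℂ) r := ball_subset_ball (min_le_left _ _) hs
    exact (hball s hs1).1

end Pool.Agent.H722.BT207
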